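import Pool.Agent.H31.DP.Targets

/-!
Definitions for the upper layer of the project DP: independence of distant patterns.
-/

set_option autoImplicit false

open Finset Filter Topology

namespace Pool.Agent.H66.DP

open Pool.Agent.H31.DP

/-- The values of `Φ` on the window `μ(n + a), …, μ(n + a + l - 1)` of the Möbius sequence. -/
noncomputable def lo (l : ℕ) (a : ℤ) (Φ : (Fin l → ℤ) → ℂ) (n : ℕ) : ℂ :=
  Φ (fun i => ArithmeticFunction.moebius (((n : ℤ) + (a + (i : ℕ))).toNat))

/-- The mean of `f` over the `J` points `n + q, n + 2 q, …, n + J q`. -/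
noncomputable def mn (f : ℕ → ℂ) (q J n : ℕ) : ℂ := (∑ j ∈ Finset.Icc 1 J, f (n + q * j)) / J

open Classical in
/-- The scales `N` with `P N` have relative logarithmic measure at most `ρ` in all long
intervals. -/
def Few (P : ℕ → Prop) (ρ : ℝ) : Prop :=
  ∃ K : ℕ, ∀ x y : ℕ, 0 < x → K * x ≤ y →
    ∑ N ∈ (Finset.Icc x y).filter P, (1 / (N : ℝ)) ≤ ρ * Real.log ((y : ℝ) / x)

/-- The twisted sums of `f` on `[1, 2 N]` are larger than `η N` for some frequency. -/
def Big (f : ℕ → ℂ) (η : ℝ) (N : ℕ) : Prop :=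
  ∃ θ : ℝ, η * N < ‖∑ m ∈ Finset.Icc 1 (2 * N), f m * ee (m * θ)‖

end Pool.Agent.H66.DP
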