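import Pool.Agent.H66.DP.Defs

/-!
Rules for sets of few scales.
-/

set_option autoImplicit false

open Finset Filter Topology

namespace Pool.Agent.H66.DP

open Pool.Agent.H31.DP

theorem few_iff {P : ℕ → Prop} {ρ : ℝ} : Few P ρ ↔ ∃ K : ℕ, ∀ x y : ℕ, 0 < x → K * x ≤ y →
    ∀ s : Finset ℕ, (∀ N ∈ s, x ≤ N ∧ N ≤ y ∧ P N) →
      ∑ N ∈ s, (1 / (N : ℝ)) ≤ ρ * Real.log ((y : ℝ) / x) := by
  classical
  constructor
  · rintro ⟨K, hK⟩
    refine ⟨K, fun x y hx hxy s hs => le_trans ?_ (hK x y hx hxy)⟩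
    apply Finset.sum_le_sum_of_subset_of_nonneg
    · intro N hN
      rw [Finset.mem_filter, Finset.mem_Icc]
      exact ⟨⟨(hs N hN).1, (hs N hN).2.1⟩, (hs N hN).2.2⟩
    · intro N _ _
      positivity
  · rintro ⟨K, hK⟩
    refine ⟨K, fun x y hx hxy => hK x y hx hxy _ ?_⟩
    intro N hN
    rw [Finset.mem_filter, Finset.mem_Icc] at hN
    exact ⟨hN.1.1, hN.1.2, hN.2⟩

theorem log_nonneg_of {K x y : ℕ} (hK : 1 ≤ K) (hx : 0 < x) (hxy : K * x ≤ y) :
    0 ≤ Real.log ((y : ℝ) / x) := by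
  apply Real.log_nonneg
  rw [le_div_iff₀ (by exact_mod_cast hx)]
  have : x ≤ y := le_trans (by nlinarith) hxy
  rw [one_mul]
  exact_mod_cast this

theorem few_mono {P Q : ℕ → Prop} {ρ ρ' : ℝ} (h : ∀ N, P N → Q N) (hρ : ρ ≤ ρ')
    (hQ : Few Q ρ) : Few P ρ' := by
  rw [few_iff] at hQ ⊢
  obtain ⟨K, hK⟩ := hQ
  refine ⟨max K 1, fun x y hx hxy s hs => ?_⟩
  have hxy' : K * x ≤ y := le_trans (Nat.mul_le_mul_right x (le_max_left K 1)) hxy
  have h1 := hK x y hx hxy' s (fun N hN => ⟨(hs N hN).1, (hs N hN).2.1, h N (hs N hN).2.2⟩)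
  have h2 : 0 ≤ Real.log ((y : ℝ) / x) := log_nonneg_of (le_max_right K 1) hx hxy
  exact le_trans h1 (mul_le_mul_of_nonneg_right hρ h2)

theorem few_or {P Q : ℕ → Prop} {ρ ρ' : ℝ} (hP : Few P ρ) (hQ : Few Q ρ') :
    Few (fun N => P N ∨ Q N) (ρ + ρ') := by
  classical
  rw [few_iff] at hP hQ ⊢
  obtain ⟨K, hK⟩ := hP
  obtain ⟨K', hK'⟩ := hQ
  refine ⟨max K K', fun x y hx hxy s hs => ?_⟩
  have h1 := hK x y hx (le_trans (Nat.mul_le_mul_right x (le_max_left K K')) hxy)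
    (s.filter P) (fun N hN => by
      rw [Finset.mem_filter] at hN
      exact ⟨(hs N hN.1).1, (hs N hN.1).2.1, hN.2⟩)
  have h2 := hK' x y hx (le_trans (Nat.mul_le_mul_right x (le_max_right K K')) hxy)
    (s.filter (fun N => ¬ P N)) (fun N hN => by
      rw [Finset.mem_filter] at hN
      refine ⟨(hs N hN.1).1, (hs N hN.1).2.1, ?_⟩
      rcases (hs N hN.1).2.2 with h | h
      · exact absurd h hN.2
      · exact h)
  rw [← Finset.sum_filter_add_sum_filter_not s P, add_mul]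
  exact add_le_add h1 h2

theorem few_false : Few (fun _ => False) 0 := by
  rw [few_iff]
  refine ⟨0, fun x y _ _ s hs => ?_⟩
  have : s = ∅ := by
    rw [Finset.eq_empty_iff_forall_notMem]
    intro N hN
    exact (hs N hN).2.2
  rw [this, Finset.sum_empty, zero_mul]

theorem few_exists {ι : Type} (s : Finset ι) (P : ι → ℕ → Prop) (ρ : ℝ)
    (h : ∀ j ∈ s, Few (P j) ρ) : Few (fun N => ∃ j ∈ s, P j N) (s.card * ρ) := by
  classical
  induction s using Finset.induction_on with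
  | empty =>
    refine few_mono (Q := fun _ => False) (ρ := 0) ?_ ?_ few_false
    · rintro N ⟨j, hj, _⟩
      exact absurd hj (Finset.notMem_empty j)
    · simp
  | insert a s ha ih =>
    have h1 := ih (fun j hj => h j (Finset.mem_insert_of_mem hj))
    have h2 := h a (Finset.mem_insert_self a s)
    refine few_mono ?_ ?_ (few_or h2 h1)
    · rintro N ⟨j, hj, hjN⟩
      rcases Finset.mem_insert.1 hj with rfl | hj
      · exact Or.inl hjN
      · exact Or.inr ⟨j, hj, hjN⟩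
    · rw [Finset.card_insert_of_notMem ha]
      push_cast
      linarith

theorem few_lt (L : ℕ) {ρ : ℝ} (hρ : 0 < ρ) : Few (fun N => N < L) ρ := by
  rw [few_iff]
  obtain ⟨K, hK⟩ := exists_nat_ge (Real.exp (L / ρ))
  refine ⟨K, fun x y hx hxy s hs => ?_⟩
  have h1 : ∑ N ∈ s, (1 / (N : ℝ)) ≤ ∑ N ∈ s, (1 : ℝ) := by
    apply Finset.sum_le_sum
    intro N hN
    have hN1 : 1 ≤ N := le_trans hx (hs N hN).1
    have hN2 : (1 : ℝ) ≤ N := by exact_mod_cast hN1
    rw [div_le_one (by linarith)]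
    exact hN2
  have h2 : ∑ N ∈ s, (1 : ℝ) ≤ L := by
    rw [Finset.sum_const, nsmul_eq_mul, mul_one]
    have : s.card ≤ (Finset.range L).card := Finset.card_le_card (fun N hN =>
      Finset.mem_range.2 (hs N hN).2.2)
    rw [Finset.card_range] at this
    exact_mod_cast this
  have h3 : (L : ℝ) / ρ ≤ Real.log ((y : ℝ) / x) := by
    rw [Real.le_log_iff_exp_le]
    · refine le_trans hK ?_
      rw [le_div_iff₀ (by exact_mod_cast hx)]
      exact_mod_cast hxy
    · have hK0 : 0 < (K : ℝ) := lt_of_lt_of_le (Real.exp_pos _) hK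
      have hK1 : 0 < K := by exact_mod_cast hK0
      have hy : 0 < y := lt_of_lt_of_le (Nat.mul_pos hK1 hx) hxy
      positivity
  have h4 : (L : ℝ) ≤ ρ * Real.log ((y : ℝ) / x) := by
    rw [div_le_iff₀ hρ] at h3
    linarith
  linarith

theorem few_double {P : ℕ → Prop} {ρ : ℝ} (hP : Few P ρ) : Few (fun N => P (2 * N)) (2 * ρ) := by
  classical
  rw [few_iff] at hP ⊢
  obtain ⟨K, hK⟩ := hP
  refine ⟨K, fun x y hx hxy s hs => ?_⟩
  have h1 := hK (2 * x) (2 * y) (by omega) (by nlinarith) (s.image (fun N => 2 * N)) (by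
    intro M hM
    rw [Finset.mem_image] at hM
    obtain ⟨N, hN, rfl⟩ := hM
    have := hs N hN
    exact ⟨by omega, by omega, this.2.2⟩)
  rw [Finset.sum_image (fun a _ b _ hab => by
    have : 2 * a = 2 * b := hab
    omega)] at h1
  have h2 : ∑ N ∈ s, (1 / (N : ℝ)) = 2 * ∑ N ∈ s, (1 / ((2 * N : ℕ) : ℝ)) := by
    rw [Finset.mul_sum]
    apply Finset.sum_congr rfl
    intro N hN
    have hN0 : (N : ℝ) ≠ 0 := by
      have := hs N hN
      have : 0 < N := lt_of_lt_of_le hx this.1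
      positivity
    push_cast
    field_simp
  have h3 : ((2 * y : ℕ) : ℝ) / ((2 * x : ℕ) : ℝ) = (y : ℝ) / x := by
    push_cast
    rw [mul_div_mul_left _ _ (by norm_num)]
  rw [h3] at h1
  rw [h2]
  linarith

end Pool.Agent.H66.DP
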