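import Pool.Agent.H66.DP.Few

/-!
Every product of the Möbius function is its mean along an arithmetic progression plus a function
with small Fourier transform, at almost all scales.
-/

set_option autoImplicit false

open Finset Filter Topology

namespace Pool.Agent.H66.DP

open Pool.Agent.H31.DP

theorem norm_ee (x : ℝ) : ‖ee x‖ = 1 := by
  unfold ee
  have : 2 * (Real.pi : ℂ) * Complex.I * (x : ℂ) = ((2 * Real.pi * x : ℝ) : ℂ) * Complex.I := by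
    push_cast
    ring
  rw [this, Complex.norm_exp_ofReal_mul_I]

theorem norm_fm_le {r : ℕ} (β : Fin r → ℤ) (δ : Fin r → ℕ) (n : ℕ) : |fm β δ n| ≤ 1 := by
  unfold fm
  rw [Finset.abs_prod]
  apply Finset.prod_le_one
  · intro i _
    exact abs_nonneg _
  · intro i _
    rw [abs_pow]
    apply pow_le_one₀ (abs_nonneg _)
    have := ArithmeticFunction.abs_moebius_le_one (n := ((n : ℤ) + β i).toNat)
    exact_mod_cast this

/-- The complex valued product. -/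
noncomputable def fc {r : ℕ} (β : Fin r → ℤ) (δ : Fin r → ℕ) (n : ℕ) : ℂ := ((fm β δ n : ℝ) : ℂ)

theorem norm_fc_le {r : ℕ} (β : Fin r → ℤ) (δ : Fin r → ℕ) (n : ℕ) : ‖fc β δ n‖ ≤ 1 := by
  unfold fc
  rw [Complex.norm_real, Real.norm_eq_abs]
  exact norm_fm_le β δ n

theorem norm_mn_le {f : ℕ → ℂ} {B : ℝ} (hB : 0 ≤ B) (hf : ∀ n, ‖f n‖ ≤ B) (q J n : ℕ) :
    ‖mn f q J n‖ ≤ B := by
  unfold mn
  rw [norm_div, Complex.norm_natCast]
  rcases Nat.eq_zero_or_pos J with rfl | hJ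
  · simpa using hB
  rw [div_le_iff₀ (by exact_mod_cast hJ)]
  refine le_trans (norm_sum_le _ _) ?_
  refine le_trans (Finset.sum_le_sum (fun j _ => hf (n + q * j))) ?_
  rw [Finset.sum_const, Nat.card_Icc, Nat.add_sub_cancel, nsmul_eq_mul]
  linarith

/-- [G1] -/
def StatementG1 : Prop :=
  ∀ (r : ℕ) (β : Fin r → ℤ) (δ : Fin r → ℕ) (η ρ : ℝ), (∀ i, 1 ≤ δ i) → 0 < η → 0 < ρ →
    ∃ K₁ : ℕ, ∀ q : ℕ, 0 < q → (∀ q' : ℕ, 1 ≤ q' → q' ≤ K₁ → q' ∣ q) →
      ∃ L₀ : ℕ, ∀ L : ℕ, L₀ ≤ L →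
        Few (fun N => Big (fun m => fc β δ m - mn (fc β δ) q (N / L) m) η N) ρ

theorem norm_one_sub_avg_le (q J : ℕ) (θ : ℝ) :
    ‖1 - (∑ j ∈ Finset.Icc 1 J, ee (-(q * j * θ))) / (J : ℂ)‖ ≤ 2 := by
  have h1 : ‖(∑ j ∈ Finset.Icc 1 J, ee (-(q * j * θ))) / (J : ℂ)‖ ≤ 1 := by
    rw [norm_div, Complex.norm_natCast]
    rcases Nat.eq_zero_or_pos J with rfl | hJ
    · simp
    rw [div_le_iff₀ (by exact_mod_cast hJ)]
    refine le_trans (norm_sum_le _ _) ?_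
    rw [Finset.sum_congr rfl (fun j _ => norm_ee _), Finset.sum_const, Nat.card_Icc,
      Nat.add_sub_cancel, nsmul_eq_mul]
    linarith
  calc ‖1 - (∑ j ∈ Finset.Icc 1 J, ee (-(q * j * θ))) / (J : ℂ)‖
      ≤ ‖(1 : ℂ)‖ + ‖(∑ j ∈ Finset.Icc 1 J, ee (-(q * j * θ))) / (J : ℂ)‖ := norm_sub_le _ _
    _ ≤ 2 := by
      rw [norm_one]
      linarith

theorem pf_G1 (hTM : StatementTM) (hUH : StatementUH) : StatementG1 := by
  intro r β δ η ρ hδ hη hρ
  obtain ⟨K₁, hK₁⟩ := hTM r β δ (η / 8) (ρ / 4) hδ (by positivity) (by positivity)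
  refine ⟨K₁, fun q hq hq' => ?_⟩
  obtain ⟨L₀, hL₀⟩ := exists_nat_ge (8 * q / η + 8 * Real.pi * q * K₁ / η + 1)
  refine ⟨L₀, fun L hL => ?_⟩
  have hLr : 8 * q / η + 8 * Real.pi * q * K₁ / η + 1 ≤ (L : ℝ) :=
    le_trans hL₀ (by exact_mod_cast hL)
  have hpi := Real.pi_pos
  have hq0 : (0 : ℝ) < q := by exact_mod_cast hq
  have hA : 0 ≤ 8 * (q : ℝ) / η := by positivity
  have hB : 0 ≤ 8 * Real.pi * q * K₁ / η := by positivity
  have hL1 : (1 : ℝ) ≤ L := by linarith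
  have hLpos : 0 < L := by
    have : (0 : ℝ) < L := by linarith
    exact_mod_cast this
  have hLq : 8 * (q : ℝ) ≤ η * L := by
    have : 8 * (q : ℝ) / η ≤ L := by linarith
    rw [div_le_iff₀ hη] at this
    linarith
  have hLK : 8 * Real.pi * q * K₁ ≤ η * L := by
    have : 8 * Real.pi * (q : ℝ) * K₁ / η ≤ L := by linarith
    rw [div_le_iff₀ hη] at this
    linarith
  have hfew : Few (fun N : ℕ => ∃ θ : ℝ, Minor K₁ N θ ∧ η / 8 * N < ‖Sm β δ N θ‖) (ρ / 4) := by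
    refine ⟨K₁, fun x y hx hxy => ?_⟩
    convert hK₁ x y hx hxy using 2
  have h1 := few_or (few_double hfew) (few_lt L (half_pos hρ))
  refine few_mono ?_ (by linarith) h1
  rintro N ⟨θ, hθ⟩
  by_contra hcon
  push Not at hcon
  obtain ⟨hc1, hc2⟩ := hcon
  apply absurd hθ
  push Not
  have hN : 0 < N := lt_of_lt_of_le hLpos hc2
  have hJ : 0 < N / L := Nat.div_pos hc2 hLpos
  have hNr : (0 : ℝ) < N := by exact_mod_cast hN
  have hJN : ((N / L : ℕ) : ℝ) * L ≤ N := by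
    have := Nat.div_mul_le_self N L
    exact_mod_cast this
  have h2 := hUH.1 (fc β δ) N q (N / L) θ (norm_fc_le β δ) hJ
  have hS : ∑ m ∈ Finset.Icc 1 (2 * N), fc β δ m * ee (m * θ) = Sm β δ (2 * N) θ := rfl
  rw [hS] at h2
  have hqJ : 2 * (q : ℝ) * ((N / L : ℕ) : ℝ) ≤ η / 4 * N := by
    have h3 : 8 * (q : ℝ) * ((N / L : ℕ) : ℝ) ≤ η * L * ((N / L : ℕ) : ℝ) :=
      mul_le_mul_of_nonneg_right hLq (Nat.cast_nonneg _)
    have h4 : η * L * ((N / L : ℕ) : ℝ) ≤ η * N := by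
      calc η * L * ((N / L : ℕ) : ℝ) = η * (((N / L : ℕ) : ℝ) * L) := by ring
        _ ≤ η * N := mul_le_mul_of_nonneg_left hJN hη.le
    linarith
  have hprod : ‖Sm β δ (2 * N) θ‖ *
      ‖1 - (∑ j ∈ Finset.Icc 1 (N / L), ee (-(q * j * θ))) / ((N / L : ℕ) : ℂ)‖ ≤
      η / 2 * N := by
    by_cases hmin : Minor K₁ (2 * N) θ
    · have h3 : ‖Sm β δ (2 * N) θ‖ ≤ η / 8 * ((2 * N : ℕ) : ℝ) := hc1 θ hmin
      calc ‖Sm β δ (2 * N) θ‖ *
          ‖1 - (∑ j ∈ Finset.Icc 1 (N / L), ee (-(q * j * θ))) / ((N / L : ℕ) : ℂ)‖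
          ≤ (η / 8 * ((2 * N : ℕ) : ℝ)) * 2 :=
            mul_le_mul h3 (norm_one_sub_avg_le q _ θ) (norm_nonneg _) (by positivity)
        _ = η / 2 * N := by push_cast; ring
    · have h3 := hUH.2 K₁ N q (N / L) θ hq' hN hJ hmin
      have h4 : Real.pi * ((N / L : ℕ) : ℝ) * q * K₁ / N ≤ η / 8 := by
        rw [div_le_iff₀ hNr]
        have h5 : 8 * Real.pi * q * K₁ * ((N / L : ℕ) : ℝ) ≤ η * L * ((N / L : ℕ) : ℝ) :=
          mul_le_mul_of_nonneg_right hLK (Nat.cast_nonneg _)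
        have h6 : η * L * ((N / L : ℕ) : ℝ) ≤ η * N := by
          calc η * L * ((N / L : ℕ) : ℝ) = η * (((N / L : ℕ) : ℝ) * L) := by ring
            _ ≤ η * N := mul_le_mul_of_nonneg_left hJN hη.le
        linarith
      have h7 : ‖Sm β δ (2 * N) θ‖ ≤ 2 * N := by
        rw [← hS]
        refine le_trans (norm_sum_le _ _) ?_
        refine le_trans (Finset.sum_le_sum (g := fun _ => (1 : ℝ)) ?_) ?_
        · intro m _
          rw [norm_mul, norm_ee, mul_one]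
          exact norm_fc_le β δ m
        · rw [Finset.sum_const, Nat.card_Icc, Nat.add_sub_cancel, nsmul_eq_mul]
          push_cast
          linarith
      calc ‖Sm β δ (2 * N) θ‖ *
          ‖1 - (∑ j ∈ Finset.Icc 1 (N / L), ee (-(q * j * θ))) / ((N / L : ℕ) : ℂ)‖
          ≤ (2 * N) * (η / 8) :=
            mul_le_mul h7 (le_trans h3 h4) (norm_nonneg _) (by positivity)
        _ ≤ η / 2 * N := by nlinarith
  calc ‖∑ m ∈ Finset.Icc 1 (2 * N), (fc β δ m - mn (fc β δ) q (N / L) m) * ee (m * θ)‖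
      ≤ ‖Sm β δ (2 * N) θ‖ *
        ‖1 - (∑ j ∈ Finset.Icc 1 (N / L), ee (-(q * j * θ))) / ((N / L : ℕ) : ℂ)‖ +
        2 * q * ((N / L : ℕ) : ℝ) := h2
    _ ≤ η / 2 * N + η / 4 * N := add_le_add hprod hqJ
    _ ≤ η * N := by nlinarith

end Pool.Agent.H66.DP
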