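import Pool.Agent.H66.DP.G1

/-!
Local functions of the Möbius sequence.
-/

set_option autoImplicit false

open Finset Filter Topology

namespace Pool.Agent.H66.DP

open Pool.Agent.H31.DP

/-- Linear combinations of products of the Möbius function. -/
inductive LC : (ℕ → ℂ) → Prop
  | fc {r : ℕ} (β : Fin r → ℤ) (δ : Fin r → ℕ) (h : ∀ i, 1 ≤ δ i) : LC (fc β δ)
  | add {f g : ℕ → ℂ} (hf : LC f) (hg : LC g) : LC (fun n => f n + g n)
  | smul {f : ℕ → ℂ} (c : ℂ) (hf : LC f) : LC (fun n => c * f n)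

/-- The Möbius function as a complex function of `n + b`. -/
noncomputable def mx (b : ℤ) (n : ℕ) : ℂ :=
  ((ArithmeticFunction.moebius (((n : ℤ) + b).toNat) : ℤ) : ℂ)

theorem lc_congr {f g : ℕ → ℂ} (hf : LC f) (h : ∀ n, g n = f n) : LC g := by
  have : g = f := funext h
  rw [this]
  exact hf

theorem lc_one : LC (fun _ => 1) := by
  refine lc_congr (LC.fc (r := 0) (fun i => i.elim0) (fun i => i.elim0) (fun i => i.elim0)) ?_
  intro n
  simp [fc, fm]

theorem fc_cons {r : ℕ} (β : Fin r → ℤ) (δ : Fin r → ℕ) (b : ℤ) (e : ℕ) (n : ℕ) :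
    fc (Fin.cons b β : Fin (r + 1) → ℤ) (Fin.cons e δ : Fin (r + 1) → ℕ) n =
      mx b n ^ e * fc β δ n := by
  unfold fc fm mx
  rw [Fin.prod_univ_succ]
  simp only [Fin.cons_zero, Fin.cons_succ]
  push_cast
  ring

theorem lc_mul_mx {f : ℕ → ℂ} (hf : LC f) (b : ℤ) (e : ℕ) (he : 1 ≤ e) :
    LC (fun n => mx b n ^ e * f n) := by
  induction hf with
  | fc β δ h =>
    refine lc_congr (LC.fc (Fin.cons b β) (Fin.cons e δ) ?_) (fun n => (fc_cons β δ b e n).symm)
    intro i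
    refine Fin.cases ?_ (fun j => ?_) i
    · rw [Fin.cons_zero]; exact he
    · rw [Fin.cons_succ]; exact h j
  | add _ _ h1 h2 => exact lc_congr (LC.add h1 h2) (fun n => by ring)
  | smul c _ h1 => exact lc_congr (LC.smul c h1) (fun n => by ring)

theorem mx_cases (b : ℤ) (n : ℕ) : mx b n = 0 ∨ mx b n = 1 ∨ mx b n = -1 := by
  unfold mx
  have h := ArithmeticFunction.moebius_eq_or (((n : ℤ) + b).toNat)
  rcases h with h | h | h
  · left; rw [h]; simp
  · right; left; rw [h]; simp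
  · right; right; rw [h]; simp

theorem lc_lo : ∀ (l : ℕ) (a : ℤ) (Φ : (Fin l → ℤ) → ℂ), LC (lo l a Φ) := by
  intro l
  induction l with
  | zero =>
    intro a Φ
    refine lc_congr (LC.smul (Φ (fun i => i.elim0)) lc_one) (fun n => ?_)
    rw [mul_one]
    unfold lo
    congr 1
    funext i
    exact i.elim0
  | succ l ih =>
    intro a Φ
    have h0 := ih (a + 1) (fun z => Φ (Fin.cons 0 z))
    have h1 := ih (a + 1) (fun z => Φ (Fin.cons 1 z))
    have h2 := ih (a + 1) (fun z => Φ (Fin.cons (-1) z))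
    have hlo : ∀ n, lo (l + 1) a Φ n =
        (1 - mx a n ^ 2) * lo l (a + 1) (fun z => Φ (Fin.cons 0 z)) n +
        ((mx a n ^ 2 + mx a n ^ 1) / 2) * lo l (a + 1) (fun z => Φ (Fin.cons 1 z)) n +
        ((mx a n ^ 2 - mx a n ^ 1) / 2) * lo l (a + 1) (fun z => Φ (Fin.cons (-1) z)) n := by
      intro n
      have hw : (fun i : Fin (l + 1) =>
          ArithmeticFunction.moebius (((n : ℤ) + (a + (i : ℕ))).toNat)) =
          Fin.cons (ArithmeticFunction.moebius (((n : ℤ) + a).toNat)) (fun i : Fin l =>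
            ArithmeticFunction.moebius (((n : ℤ) + ((a + 1) + (i : ℕ))).toNat)) := by
        funext i
        refine Fin.cases ?_ (fun j => ?_) i
        · rw [Fin.cons_zero]
          simp
        · rw [Fin.cons_succ]
          congr 3
          push_cast [Fin.val_succ]
          ring
      unfold lo
      rw [hw]
      rcases ArithmeticFunction.moebius_eq_or (((n : ℤ) + a).toNat) with h | h | h
      · have hm : mx a n = 0 := by unfold mx; rw [h]; simp
        rw [h, hm]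
        simp
      · have hm : mx a n = 1 := by unfold mx; rw [h]; simp
        rw [h, hm]
        simp
      · have hm : mx a n = -1 := by unfold mx; rw [h]; simp
        rw [h, hm]
        norm_num
    have e0 : LC (fun n => (1 - mx a n ^ 2) * lo l (a + 1) (fun z => Φ (Fin.cons 0 z)) n) :=
      lc_congr (LC.add h0 (LC.smul (-1) (lc_mul_mx h0 a 2 (by norm_num)))) (fun n => by ring)
    have e1 : LC (fun n => ((mx a n ^ 2 + mx a n ^ 1) / 2) *
        lo l (a + 1) (fun z => Φ (Fin.cons 1 z)) n) :=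
      lc_congr (LC.add (LC.smul (1 / 2) (lc_mul_mx h1 a 2 (by norm_num)))
        (LC.smul (1 / 2) (lc_mul_mx h1 a 1 le_rfl))) (fun n => by ring)
    have e2 : LC (fun n => ((mx a n ^ 2 - mx a n ^ 1) / 2) *
        lo l (a + 1) (fun z => Φ (Fin.cons (-1) z)) n) :=
      lc_congr (LC.add (LC.smul (1 / 2) (lc_mul_mx h2 a 2 (by norm_num)))
        (LC.smul (-1 / 2) (lc_mul_mx h2 a 1 le_rfl))) (fun n => by ring)
    exact lc_congr (LC.add (LC.add e0 e1) e2) hlo

/-- The structure theorem for `f`. -/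
def GP (f : ℕ → ℂ) : Prop :=
  ∀ (η ρ : ℝ), 0 < η → 0 < ρ →
    ∃ K₁ : ℕ, ∀ q : ℕ, 0 < q → (∀ q' : ℕ, 1 ≤ q' → q' ≤ K₁ → q' ∣ q) →
      ∃ L₀ : ℕ, ∀ L : ℕ, L₀ ≤ L → Few (fun N => Big (fun m => f m - mn f q (N / L) m) η N) ρ

theorem mn_add (f g : ℕ → ℂ) (q J n : ℕ) :
    mn (fun n => f n + g n) q J n = mn f q J n + mn g q J n := by
  unfold mn
  rw [Finset.sum_add_distrib, add_div]

theorem mn_smul (c : ℂ) (f : ℕ → ℂ) (q J n : ℕ) :
    mn (fun n => c * f n) q J n = c * mn f q J n := by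
  unfold mn
  rw [← Finset.mul_sum, mul_div_assoc]

theorem big_add {f g : ℕ → ℂ} {η : ℝ} {N : ℕ} (h : Big (fun m => f m + g m) η N) :
    Big f (η / 2) N ∨ Big g (η / 2) N := by
  obtain ⟨θ, hθ⟩ := h
  by_contra hcon
  push Not at hcon
  obtain ⟨h1, h2⟩ := hcon
  unfold Big at h1 h2
  push Not at h1 h2
  have e : ∑ m ∈ Finset.Icc 1 (2 * N), (f m + g m) * ee (m * θ) =
      ∑ m ∈ Finset.Icc 1 (2 * N), f m * ee (m * θ) +
        ∑ m ∈ Finset.Icc 1 (2 * N), g m * ee (m * θ) := by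
    rw [← Finset.sum_add_distrib]
    apply Finset.sum_congr rfl
    intro m _
    ring
  rw [e] at hθ
  have := norm_add_le (∑ m ∈ Finset.Icc 1 (2 * N), f m * ee (m * θ))
    (∑ m ∈ Finset.Icc 1 (2 * N), g m * ee (m * θ))
  have a1 := h1 θ
  have a2 := h2 θ
  linarith

theorem big_smul {f : ℕ → ℂ} {η : ℝ} {N : ℕ} (c : ℂ) (h : Big (fun m => c * f m) η N) :
    Big f (η / (‖c‖ + 1)) N := by
  obtain ⟨θ, hθ⟩ := h
  by_contra hcon
  unfold Big at hcon
  push Not at hcon
  have e : ∑ m ∈ Finset.Icc 1 (2 * N), (c * f m) * ee (m * θ) =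
      c * ∑ m ∈ Finset.Icc 1 (2 * N), f m * ee (m * θ) := by
    rw [Finset.mul_sum]
    apply Finset.sum_congr rfl
    intro m _
    ring
  rw [e, norm_mul] at hθ
  have h1 := hcon θ
  have hc := norm_nonneg c
  have h2 : ‖c‖ * ‖∑ m ∈ Finset.Icc 1 (2 * N), f m * ee (m * θ)‖ ≤
      (‖c‖ + 1) * (η / (‖c‖ + 1) * N) := by
    refine le_trans (mul_le_mul_of_nonneg_left h1 hc) ?_
    apply mul_le_mul_of_nonneg_right (by linarith)
    exact le_trans (norm_nonneg _) h1
  have h3 : (‖c‖ + 1) * (η / (‖c‖ + 1) * N) = η * N := by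
    field_simp
  linarith

theorem big_mono {f : ℕ → ℂ} {η η' : ℝ} {N : ℕ} (h : η' ≤ η) (hB : Big f η N) : Big f η' N := by
  obtain ⟨θ, hθ⟩ := hB
  exact ⟨θ, lt_of_le_of_lt (mul_le_mul_of_nonneg_right h (Nat.cast_nonneg N)) hθ⟩

theorem gp_of_lc (hG1 : StatementG1) {f : ℕ → ℂ} (hf : LC f) : GP f := by
  induction hf with
  | fc β δ h =>
    intro η ρ hη hρ
    exact hG1 _ β δ η ρ h hη hρ
  | @add f g _ _ h1 h2 =>
    intro η ρ hη hρ
    obtain ⟨K₁, hK₁⟩ := h1 (η / 2) (ρ / 2) (by positivity) (by positivity)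
    obtain ⟨K₂, hK₂⟩ := h2 (η / 2) (ρ / 2) (by positivity) (by positivity)
    refine ⟨max K₁ K₂, fun q hq hq' => ?_⟩
    obtain ⟨L₁, hL₁⟩ := hK₁ q hq (fun q' a b => hq' q' a (le_trans b (le_max_left _ _)))
    obtain ⟨L₂, hL₂⟩ := hK₂ q hq (fun q' a b => hq' q' a (le_trans b (le_max_right _ _)))
    refine ⟨max L₁ L₂, fun L hL => ?_⟩
    refine few_mono ?_ (by linarith) (few_or (hL₁ L (le_trans (le_max_left _ _) hL))
      (hL₂ L (le_trans (le_max_right _ _) hL)))
    intro N hN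
    apply big_add
    have e : (fun m => (f m - mn f q (N / L) m) + (g m - mn g q (N / L) m)) =
        (fun m => (f m + g m) - mn (fun n => f n + g n) q (N / L) m) := by
      funext m
      rw [mn_add]
      ring
    rw [e]
    exact hN
  | @smul f c _ h1 =>
    intro η ρ hη hρ
    have hc : 0 < ‖c‖ + 1 := by positivity
    obtain ⟨K₁, hK₁⟩ := h1 (η / (‖c‖ + 1)) ρ (by positivity) hρ
    refine ⟨K₁, fun q hq hq' => ?_⟩
    obtain ⟨L₁, hL₁⟩ := hK₁ q hq hq'
    refine ⟨L₁, fun L hL => few_mono ?_ le_rfl (hL₁ L hL)⟩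
    intro N hN
    apply big_smul c
    have e : (fun m => c * (f m - mn f q (N / L) m)) =
        (fun m => c * f m - mn (fun n => c * f n) q (N / L) m) := by
      funext m
      rw [mn_smul]
      ring
    rw [e]
    exact hN

/-- The structure theorem for the local functions of the Möbius sequence. -/
theorem gp_lo (hG1 : StatementG1) (l : ℕ) (a : ℤ) (Φ : (Fin l → ℤ) → ℂ) : GP (lo l a Φ) :=
  gp_of_lc hG1 (lc_lo l a Φ)

end Pool.Agent.H66.DP
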