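import Pool.Agent.H66.DP.Few

/-!
Products of several functions at distant places.
-/

set_option autoImplicit false

open Finset Filter Topology

namespace Pool.Agent.H66.DP

open Pool.Agent.H31.DP

/-- One factor. -/
theorem tt_one (hPV : StatementPV) (F u : ℕ → ℂ) (N : ℕ) (E : ℝ) (hF : ∀ n, ‖F n‖ ≤ 1)
    (hu : ∀ θ : ℝ, ‖∑ m ∈ Finset.Icc 1 (2 * N), u m * ee (m * θ)‖ ≤ E) :
    ∑ t ∈ Finset.Icc 1 N, ‖∑ n ∈ Finset.Icc 1 N, F n * u (n + t)‖ ≤ N * E := by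
  have hE : 0 ≤ E := le_trans (norm_nonneg _) (hu 0)
  have h1 := hPV F u N E hF hu
  have h2 : (∑ t ∈ Finset.Icc 1 N, ‖∑ n ∈ Finset.Icc 1 N, F n * u (n + t)‖) ^ 2 ≤
      (Finset.Icc 1 N).card * ∑ t ∈ Finset.Icc 1 N,
        ‖∑ n ∈ Finset.Icc 1 N, F n * u (n + t)‖ ^ 2 := sq_sum_le_card_mul_sum_sq
  rw [Nat.card_Icc, Nat.add_sub_cancel] at h2
  have h3 : (∑ t ∈ Finset.Icc 1 N, ‖∑ n ∈ Finset.Icc 1 N, F n * u (n + t)‖) ^ 2 ≤
      (N * E) ^ 2 := by
    refine le_trans h2 ?_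
    calc (N : ℝ) * ∑ t ∈ Finset.Icc 1 N, ‖∑ n ∈ Finset.Icc 1 N, F n * u (n + t)‖ ^ 2
        ≤ N * (N * E ^ 2) := mul_le_mul_of_nonneg_left h1 (Nat.cast_nonneg N)
      _ = (N * E) ^ 2 := by ring
  exact le_of_sq_le_sq h3 (by positivity)
where
  le_of_sq_le_sq {a b : ℝ} (h : a ^ 2 ≤ b ^ 2) (hb : 0 ≤ b) : a ≤ b :=
    le_trans (le_abs_self a) (abs_le_of_sq_le_sq h hb)

theorem norm_prod_le_one {k : ℕ} (z : Fin k → ℂ) (h : ∀ j, ‖z j‖ ≤ 1) : ‖∏ j, z j‖ ≤ 1 := by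
  rw [norm_prod]
  exact Finset.prod_le_one (fun j _ => norm_nonneg _) (fun j _ => h j)

/-- The sum over the tuples of distances, first coordinate separated. -/
theorem sum_pi_succ {k : ℕ} (s : Finset ℕ) (g : (Fin (k + 1) → ℕ) → ℝ) :
    ∑ t ∈ Fintype.piFinset (fun _ : Fin (k + 1) => s), g t =
      ∑ a ∈ s, ∑ t ∈ Fintype.piFinset (fun _ : Fin k => s), g (Fin.cons a t) := by
  rw [← Finset.sum_product']
  symm
  apply Finset.sum_bij (fun (p : ℕ × (Fin k → ℕ)) _ => (Fin.cons p.1 p.2 : Fin (k + 1) → ℕ))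
  · intro p hp
    rw [Finset.mem_product, Fintype.mem_piFinset] at hp
    rw [Fintype.mem_piFinset]
    intro i
    refine Fin.cases ?_ (fun j => ?_) i
    · rw [Fin.cons_zero]; exact hp.1
    · rw [Fin.cons_succ]; exact hp.2 j
  · intro p _ p' _ h
    have h1 := congrFun h 0
    rw [Fin.cons_zero, Fin.cons_zero] at h1
    have h2 : p.2 = p'.2 := by
      funext j
      have := congrFun h j.succ
      rwa [Fin.cons_succ, Fin.cons_succ] at this
    exact Prod.ext h1 h2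
  · intro t ht
    rw [Fintype.mem_piFinset] at ht
    refine ⟨(t 0, Fin.tail t), ?_, Fin.cons_self_tail t⟩
    rw [Finset.mem_product, Fintype.mem_piFinset]
    exact ⟨ht 0, fun j => ht j.succ⟩
  · intro p _
    rfl

/-- Several factors. -/
theorem tt_all (hPV : StatementPV) (N : ℕ) (E : ℝ) (k : ℕ) : ∀ (f B : Fin k → ℕ → ℂ) (F : ℕ → ℂ),
    (∀ j n, ‖f j n‖ ≤ 1) → (∀ j n, ‖B j n‖ ≤ 1) → (∀ n, ‖F n‖ ≤ 1) →
    (∀ j, ∀ θ : ℝ, ‖∑ m ∈ Finset.Icc 1 (2 * N), (f j m - B j m) * ee (m * θ)‖ ≤ E) →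
    ∑ t ∈ Fintype.piFinset (fun _ : Fin k => Finset.Icc 1 N),
      ‖∑ n ∈ Finset.Icc 1 N, F n * (∏ j, f j (n + t j) - ∏ j, B j (n + t j))‖ ≤
      k * (N : ℝ) ^ k * E := by
  induction k with
  | zero =>
    intro f B F _ _ _ _
    simp
  | succ k ih =>
    intro f B F hf hB hF hu
    rw [sum_pi_succ]
    have key : ∀ (a : ℕ) (t : Fin k → ℕ),
        ‖∑ n ∈ Finset.Icc 1 N, F n * (∏ j, f j (n + (Fin.cons a t : Fin (k + 1) → ℕ) j) -
          ∏ j, B j (n + (Fin.cons a t : Fin (k + 1) → ℕ) j))‖ ≤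
        ‖∑ n ∈ Finset.Icc 1 N, (F n * f 0 (n + a)) *
          (∏ j : Fin k, f j.succ (n + t j) - ∏ j : Fin k, B j.succ (n + t j))‖ +
        ‖∑ n ∈ Finset.Icc 1 N, (F n * ∏ j : Fin k, B j.succ (n + t j)) *
          (f 0 (n + a) - B 0 (n + a))‖ := by
      intro a t
      refine le_trans (le_of_eq ?_) (norm_add_le _ _)
      rw [← Finset.sum_add_distrib]
      congr 1
      apply Finset.sum_congr rfl
      intro n _
      rw [Fin.prod_univ_succ, Fin.prod_univ_succ]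
      simp only [Fin.cons_zero, Fin.cons_succ]
      ring
    have h1 : ∑ a ∈ Finset.Icc 1 N, ∑ t ∈ Fintype.piFinset (fun _ : Fin k => Finset.Icc 1 N),
        ‖∑ n ∈ Finset.Icc 1 N, (F n * f 0 (n + a)) *
          (∏ j : Fin k, f j.succ (n + t j) - ∏ j : Fin k, B j.succ (n + t j))‖ ≤
        ∑ a ∈ Finset.Icc 1 N, k * (N : ℝ) ^ k * E := by
      apply Finset.sum_le_sum
      intro a _
      apply ih (fun j => f j.succ) (fun j => B j.succ) (fun n => F n * f 0 (n + a))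
        (fun j n => hf j.succ n) (fun j n => hB j.succ n)
      · intro n
        rw [norm_mul]
        exact mul_le_one₀ (hF n) (norm_nonneg _) (hf 0 _)
      · intro j θ
        exact hu j.succ θ
    have h2 : ∑ a ∈ Finset.Icc 1 N, ∑ t ∈ Fintype.piFinset (fun _ : Fin k => Finset.Icc 1 N),
        ‖∑ n ∈ Finset.Icc 1 N, (F n * ∏ j : Fin k, B j.succ (n + t j)) *
          (f 0 (n + a) - B 0 (n + a))‖ ≤
        ∑ t ∈ Fintype.piFinset (fun _ : Fin k => Finset.Icc 1 N), N * E := by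
      rw [Finset.sum_comm]
      apply Finset.sum_le_sum
      intro t _
      apply tt_one hPV (fun n => F n * ∏ j : Fin k, B j.succ (n + t j))
        (fun m => f 0 m - B 0 m) N E
      · intro n
        rw [norm_mul]
        exact mul_le_one₀ (hF n) (norm_nonneg _)
          (norm_prod_le_one _ (fun j => hB j.succ _))
      · exact hu 0
    have h3 : ∑ a ∈ Finset.Icc 1 N, k * (N : ℝ) ^ k * E = N * (k * (N : ℝ) ^ k * E) := by
      rw [Finset.sum_const, Nat.card_Icc, Nat.add_sub_cancel, nsmul_eq_mul]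
    have h4 : ∑ t ∈ Fintype.piFinset (fun _ : Fin k => Finset.Icc 1 N), N * E =
        (N : ℝ) ^ k * (N * E) := by
      rw [Finset.sum_const, Fintype.card_piFinset, nsmul_eq_mul]
      simp
    calc ∑ a ∈ Finset.Icc 1 N, ∑ t ∈ Fintype.piFinset (fun _ : Fin k => Finset.Icc 1 N),
        ‖∑ n ∈ Finset.Icc 1 N, F n * (∏ j, f j (n + (Fin.cons a t : Fin (k + 1) → ℕ) j) -
          ∏ j, B j (n + (Fin.cons a t : Fin (k + 1) → ℕ) j))‖
        ≤ ∑ a ∈ Finset.Icc 1 N, ∑ t ∈ Fintype.piFinset (fun _ : Fin k => Finset.Icc 1 N),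
          (‖∑ n ∈ Finset.Icc 1 N, (F n * f 0 (n + a)) *
          (∏ j : Fin k, f j.succ (n + t j) - ∏ j : Fin k, B j.succ (n + t j))‖ +
          ‖∑ n ∈ Finset.Icc 1 N, (F n * ∏ j : Fin k, B j.succ (n + t j)) *
          (f 0 (n + a) - B 0 (n + a))‖) :=
          Finset.sum_le_sum (fun a _ => Finset.sum_le_sum (fun t _ => key a t))
      _ ≤ N * (k * (N : ℝ) ^ k * E) + (N : ℝ) ^ k * (N * E) := by
        simp only [Finset.sum_add_distrib]
        rw [← h3, ← h4]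
        exact add_le_add h1 h2
      _ = ((k + 1 : ℕ) : ℝ) * (N : ℝ) ^ (k + 1) * E := by
        push_cast
        ring

end Pool.Agent.H66.DP
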