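import Pool.Agent.H66.DP.G2
import Pool.Agent.H66.DP.TT

/-!
Independence of distant patterns of the Möbius sequence.
-/

set_option autoImplicit false

open Finset Filter Topology

namespace Pool.Agent.H66.DP

open Pool.Agent.H31.DP

/-- [IN] Independence of distant patterns: for arbitrary functions `Φ j` of windows of the
Möbius sequence, at almost all scales `N` and against every function `F` with values in the unit
disc, the product of the `k` local functions at the places `n + t j` behaves, for almost all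
distances `t ∈ [1, N] ^ k`, like the product of their local means along arithmetic progressions
of bounded difference `q` and of length `N / L`. -/
def StatementIN : Prop :=
  ∀ (k : ℕ) (l : Fin k → ℕ) (a : Fin k → ℤ) (Φ : (j : Fin k) → (Fin (l j) → ℤ) → ℂ) (η ρ : ℝ),
    (∀ j z, ‖Φ j z‖ ≤ 1) → 0 < η → 0 < ρ →
    ∃ K₁ : ℕ, ∀ q : ℕ, 0 < q → (∀ q' : ℕ, 1 ≤ q' → q' ≤ K₁ → q' ∣ q) →
      ∃ L₀ : ℕ, ∀ L : ℕ, L₀ ≤ L →
        Few (fun N => ∃ F : ℕ → ℂ, (∀ n, ‖F n‖ ≤ 1) ∧
          η * (N : ℝ) ^ (k + 1) <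
            ∑ t ∈ Fintype.piFinset (fun _ : Fin k => Finset.Icc 1 N),
              ‖∑ n ∈ Finset.Icc 1 N, F n * (∏ j, lo (l j) (a j) (Φ j) (n + t j) -
                ∏ j, mn (lo (l j) (a j) (Φ j)) q (N / L) (n + t j))‖) ρ

theorem pf_IN (hPV : StatementPV) (hG1 : StatementG1) : StatementIN := by
  intro k l a Φ η ρ hΦ hη hρ
  have hk : (0 : ℝ) < k + 1 := by positivity
  have hgp : ∀ j : Fin k, GP (lo (l j) (a j) (Φ j)) := fun j => gp_lo hG1 _ _ _
  choose K₁ hK₁ using fun j : Fin k => hgp j (η / (k + 1)) (ρ / (k + 1)) (by positivity)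
    (by positivity)
  refine ⟨∑ j, K₁ j, fun q hq hq' => ?_⟩
  have hq'' : ∀ j : Fin k, ∀ q' : ℕ, 1 ≤ q' → q' ≤ K₁ j → q' ∣ q := fun j q' h1 h2 =>
    hq' q' h1 (le_trans h2 (Finset.single_le_sum (f := K₁) (fun i _ => Nat.zero_le _)
      (Finset.mem_univ j)))
  choose L₀ hL₀ using fun j : Fin k => hK₁ j q hq (hq'' j)
  refine ⟨∑ j, L₀ j, fun L hL => ?_⟩
  have hLj : ∀ j : Fin k, L₀ j ≤ L := fun j => le_trans (Finset.single_le_sum (f := L₀)
    (fun i _ => Nat.zero_le _) (Finset.mem_univ j)) hL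
  have hfew := few_exists (Finset.univ : Finset (Fin k)) (fun j N =>
    Big (fun m => lo (l j) (a j) (Φ j) m - mn (lo (l j) (a j) (Φ j)) q (N / L) m)
      (η / (k + 1)) N) (ρ / (k + 1)) (fun j _ => hL₀ j L (hLj j))
  refine few_mono ?_ ?_ hfew
  · rintro N ⟨F, hF, hlt⟩
    by_contra hcon
    push Not at hcon
    have hlo : ∀ j n, ‖lo (l j) (a j) (Φ j) n‖ ≤ 1 := fun j n => hΦ j _
    have h1 := tt_all hPV N (η / (k + 1) * N) k (fun j => lo (l j) (a j) (Φ j))
      (fun j => mn (lo (l j) (a j) (Φ j)) q (N / L)) F hlo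
      (fun j n => norm_mn_le zero_le_one (hlo j) _ _ _) hF (by
        intro j θ
        have h2 := hcon j (Finset.mem_univ j)
        unfold Big at h2
        push Not at h2
        exact h2 θ)
    have h3 : (k : ℝ) * (N : ℝ) ^ k * (η / (k + 1) * N) ≤ η * (N : ℝ) ^ (k + 1) := by
      have h4 : (k : ℝ) * (η / (k + 1)) ≤ η := by
        rw [mul_div_assoc', div_le_iff₀ hk]
        nlinarith
      calc (k : ℝ) * (N : ℝ) ^ k * (η / (k + 1) * N)
          = ((k : ℝ) * (η / (k + 1))) * (N : ℝ) ^ (k + 1) := by ring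
        _ ≤ η * (N : ℝ) ^ (k + 1) := mul_le_mul_of_nonneg_right h4 (by positivity)
    exact absurd hlt (not_lt.2 (le_trans h1 h3))
  · rw [Finset.card_univ, Fintype.card_fin, mul_div_assoc', div_le_iff₀ hk]
    nlinarith

/-- [P1] Pairs: the correlation with an arbitrary function vanishes in the mean over the
distances. -/
def StatementP1 : Prop :=
  ∀ (r : ℕ) (β : Fin r → ℤ) (δ : Fin r → ℕ) (η ρ : ℝ), Pair β δ → 0 < η → 0 < ρ →
    Few (fun N => ∃ F : ℕ → ℂ, (∀ n, ‖F n‖ ≤ 1) ∧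
      η * (N : ℝ) ^ 2 < ∑ t ∈ Finset.Icc 1 N, ‖∑ n ∈ Finset.Icc 1 N, F n * fc β δ (n + t)‖) ρ

theorem pf_P1 (hPV : StatementPV) (hS2 : StatementS2) : StatementP1 := by
  intro r β δ η ρ hP hη hρ
  have h0 : Few (fun N : ℕ => ∃ θ : ℝ, η / 2 * N < ‖Sm β δ N θ‖) (ρ / 2) := by
    obtain ⟨K, hK⟩ := hS2 r β δ (η / 2) (ρ / 2) hP (by positivity) (by positivity)
    refine ⟨K, fun x y hx hxy => ?_⟩
    convert hK x y hx hxy using 2
  refine few_mono ?_ (by linarith) (few_double h0)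
  rintro N ⟨F, hF, hlt⟩
  by_contra hcon
  push Not at hcon
  have h1 := tt_one hPV F (fc β δ) N (η * N) hF (by
    intro θ
    have h2 := hcon θ
    have e : η / 2 * ((2 * N : ℕ) : ℝ) = η * N := by push_cast; ring
    rw [e] at h2
    exact h2)
  have h3 : (N : ℝ) * (η * N) = η * (N : ℝ) ^ 2 := by ring
  rw [h3] at h1
  exact absurd hlt (not_lt.2 h1)

end Pool.Agent.H66.DP
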